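import Mathlib
/-! MP_1b373f_co: a finite group with four involutions and no short relations.

`stp g i` is the action of the i-th involution on reduced words (no two consecutive letters equal)
of length at most `g` over four letters: delete the first letter if it is `i`, otherwise put `i` in
front if there is room, otherwise do nothing. -/
set_option autoImplicit false
namespace Pool.Agent.H84.RC

/-- the step on words -/
def stp (g : ℕ) (i : Fin 4) (l : List (Fin 4)) : List (Fin 4) :=
  if l.head? = some i then l.tail else if l.length < g then i :: l else l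

/-- reduced words of length at most `g` -/
def Ok (g : ℕ) (l : List (Fin 4)) : Prop := l.length ≤ g ∧ l.IsChain (· ≠ ·)

theorem stp_ok {g : ℕ} (i : Fin 4) {l : List (Fin 4)} (h : Ok g l) : Ok g (stp g i l) := by
  unfold stp
  split_ifs with h1 h2
  · refine ⟨le_trans ?_ h.1, h.2.tail⟩
    rw [List.length_tail]
    omega
  · refine ⟨by rw [List.length_cons]; omega, ?_⟩
    rw [List.isChain_cons]
    refine ⟨?_, h.2⟩
    rintro y hy rfl
    exact h1 hy
  · exact h

theorem stp_stp {g : ℕ} (i : Fin 4) {l : List (Fin 4)} (h : Ok g l) :
    stp g i (stp g i l) = l := by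
  by_cases h1 : l.head? = some i
  · cases l with
    | nil => simp at h1
    | cons a l' =>
      have ha : a = i := by simpa using h1
      subst ha
      have h2 := h.2
      rw [List.isChain_cons] at h2
      have h3 : l'.head? ≠ some a := fun h4 => h2.1 a h4 rfl
      have h5 : l'.length < g := by
        have := h.1
        rw [List.length_cons] at this
        omega
      have e1 : stp g a (a :: l') = l' := by
        unfold stp
        rw [if_pos h1, List.tail_cons]
      rw [e1]
      unfold stp
      rw [if_neg h3, if_pos h5]
  · by_cases h2 : l.length < g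
    · have e1 : stp g i l = i :: l := by
        unfold stp
        rw [if_neg h1, if_pos h2]
      rw [e1]
      unfold stp
      rw [if_pos (by simp), List.tail_cons]
    · have e1 : stp g i l = l := by
        unfold stp
        rw [if_neg h1, if_neg h2]
      rw [e1, e1]

/-- the words, as a type -/
abbrev Wd (g : ℕ) : Type := {l : List (Fin 4) // Ok g l}

theorem wd_finite (g : ℕ) : Finite (Wd g) :=
  Set.Finite.to_subtype ((List.finite_length_le (Fin 4) g).subset fun _ h => h.1)

/-- the involutions -/
def inv (g : ℕ) (i : Fin 4) : Equiv.Perm (Wd g) where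
  toFun l := ⟨stp g i l.1, stp_ok i l.2⟩
  invFun l := ⟨stp g i l.1, stp_ok i l.2⟩
  left_inv l := Subtype.ext (stp_stp i l.2)
  right_inv l := Subtype.ext (stp_stp i l.2)

theorem inv_inv (g : ℕ) (i : Fin 4) : inv g i * inv g i = 1 := by
  ext l : 1
  exact Subtype.ext (stp_stp i l.2)

theorem inv_prod (g : ℕ) (l : List (Fin 4)) (h : Ok g l) :
    ((l.map (inv g)).prod ⟨[], by exact ⟨Nat.zero_le _, List.isChain_nil⟩⟩ : Wd g).1 = l := by
  induction l with
  | nil => rfl
  | cons a l ih =>
    have h2 := h.2
    rw [List.isChain_cons] at h2
    have h5 : l.length < g := by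
      have := h.1
      rw [List.length_cons] at this
      omega
    have h6 : Ok g l := ⟨h5.le, h2.2⟩
    have h3 : l.head? ≠ some a := fun h4 => h2.1 a h4 rfl
    rw [List.map_cons, List.prod_cons, Equiv.Perm.mul_apply]
    show stp g a _ = _
    rw [ih h6]
    unfold stp
    rw [if_neg h3, if_pos h5]

/-- For every `g` there is a finite group with four involutions without short relations. -/
theorem exists_group (g : ℕ) : ∃ (P : Type) (_ : Group P) (_ : Fintype P) (s : Fin 4 → P),
    (∀ i, s i * s i = 1) ∧
    ∀ l : List (Fin 4), l.IsChain (· ≠ ·) → l ≠ [] → l.length ≤ g → (l.map s).prod ≠ 1 := by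
  classical
  have := wd_finite g
  let _ := Fintype.ofFinite (Wd g)
  refine ⟨Equiv.Perm (Wd g), inferInstance, inferInstance, inv g, inv_inv g, ?_⟩
  intro l hl hne hlen heq
  have h1 := inv_prod g l ⟨hlen, hl⟩
  rw [heq] at h1
  exact hne h1.symm

end Pool.Agent.H84.RC
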