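import Pool.Agent.H84.RC.A
/-! MP_1b373f_co: the graph. Vertices: the elements of a finite group with four involutions `s i`
without short relations; two distinct elements are adjacent if they are `s i * x` and `s j * x` for
some `x`. The degrees are at most `12`, and for every `x` the elements `s i * x` form a clique. -/
set_option autoImplicit false
namespace Pool.Agent.H84.RC
open SimpleGraph

variable {P : Type} [Group P]

/-- the graph -/
def Gr (s : Fin 4 → P) : SimpleGraph P where
  Adj a b := a ≠ b ∧ ∃ x i j, a = s i * x ∧ b = s j * x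
  symm := ⟨by
    rintro a b ⟨h, x, i, j, h1, h2⟩
    exact ⟨h.symm, x, j, i, h2, h1⟩⟩
  loopless := ⟨fun a h => h.1 rfl⟩

theorem gr_degree (s : Fin 4 → P) (hs : ∀ i, s i * s i = 1) (a : P) :
    ((Gr s).neighborSet a).ncard ≤ 12 := by
  classical
  have h1 : (Gr s).neighborSet a ⊆
      ((((Finset.univ : Finset (Fin 4 × Fin 4)).filter fun p => p.1 ≠ p.2).image
        fun p => s p.2 * (s p.1 * a) : Finset P) : Set P) := by
    rintro b ⟨hab, x, i, j, h1, h2⟩
    rw [Finset.coe_image]
    refine ⟨(i, j), ?_, ?_⟩
    · rw [Finset.mem_coe, Finset.mem_filter]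
      refine ⟨Finset.mem_univ _, ?_⟩
      rintro (h3 : i = j)
      subst h3
      exact hab (h1.trans h2.symm)
    · show s j * (s i * a) = b
      rw [h1, h2, ← mul_assoc (s i), hs, one_mul]
  refine le_trans (Set.ncard_le_ncard h1 (Finset.finite_toSet _)) ?_
  rw [Set.ncard_coe_finset]
  refine le_trans Finset.card_image_le ?_
  decide

theorem gr_clique (s : Fin 4 → P) (hinj : Function.Injective s) [DecidableEq P] (x : P) :
    (Gr s).IsNClique 4 (Finset.univ.image fun i => s i * x) := by
  rw [isNClique_iff]
  constructor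
  · intro a ha b hb hab
    rw [Finset.coe_image] at ha hb
    obtain ⟨i, -, rfl⟩ := ha
    obtain ⟨j, -, rfl⟩ := hb
    exact ⟨hab, x, i, j, rfl, rfl⟩
  · rw [Finset.card_image_of_injective]
    · rfl
    · intro i j h
      exact hinj (mul_right_cancel h)

/-- the main argument: no colouring with small classes has a repeated colour in all the cliques -/
theorem key [Fintype P] (s : Fin 4 → P) (hs : ∀ i, s i * s i = 1) (k : ℕ)
    (hrel : ∀ l : List (Fin 4), l.IsChain (· ≠ ·) → l ≠ [] → l.length ≤ 2 * k + 4 →
      (l.map s).prod ≠ 1) (c : P → ℕ) (hk : ∀ i : ℕ, {v : P | c v = i}.ncard ≤ k)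
    (a b : P → Fin 4) (hab : ∀ x, a x ≠ b x) (hc : ∀ x, c (s (a x) * x) = c (s (b x) * x)) :
    False := by
  classical
  -- the distinguished pairs
  let e : P → Sym2 P := fun x => s(s (a x) * x, s (b x) * x)
  have hss : ∀ i x, s i * (s i * x) = x := fun i x => by rw [← mul_assoc, hs, one_mul]
  have hinj : Function.Injective s := by
    intro i j h
    by_contra hij
    refine hrel [i, j] (by simp [hij]) (by simp) (by simp) ?_
    rw [List.map_cons, List.map_cons, List.map_nil, List.prod_cons, List.prod_cons, List.prod_nil,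
      mul_one, h, hs]
  have hend : ∀ x, s (a x) * x ≠ s (b x) * x := fun x h => hab x (hinj (mul_right_cancel h))
  -- two equal pairs
  have hfour : ∀ (x y : P) (i j k' l : Fin 4), x ≠ y → i ≠ j → k' ≠ l →
      s i * x = s k' * y → s j * x = s l * y → False := by
    intro x y i j k' l hxy hij hkl h1 h2
    have hik : i ≠ k' := by
      rintro rfl
      exact hxy (mul_left_cancel h1)
    have hjl : j ≠ l := by
      rintro rfl
      exact hxy (mul_left_cancel h2)
    refine hrel [i, k', l, j] ?_ (by simp) (by simp) ?_
    · simp [hik, hkl, hjl.symm]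
    · rw [List.map_cons, List.map_cons, List.map_cons, List.map_cons, List.map_nil, List.prod_cons,
        List.prod_cons, List.prod_cons, List.prod_cons, List.prod_nil, mul_one]
      have h3 : s i * (s k' * (s l * s j)) * x = x := by
        rw [mul_assoc, mul_assoc, mul_assoc, h2, hss, ← h1, hss]
      exact mul_eq_right.1 h3
  have heinj : Function.Injective e := by
    intro x y hxy
    by_contra hne
    rcases Sym2.eq_iff.1 hxy with ⟨h1, h2⟩ | ⟨h1, h2⟩
    · exact hfour x y _ _ _ _ hne (hab x) (hab y) h1 h2
    · exact hfour x y _ _ _ _ hne (hab x) (hab y).symm h1 h2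
  -- the graph of the pairs
  let F : SimpleGraph P := fromEdgeSet (Set.range e)
  have hFe : F.edgeSet = Set.range e := by
    show (fromEdgeSet (Set.range e)).edgeSet = _
    rw [edgeSet_fromEdgeSet]
    refine sdiff_eq_left.2 ?_
    rw [Set.disjoint_left]
    rintro _ ⟨x, rfl⟩ h
    exact hend x (by simpa [e] using h)
  have hFc : ∀ u v, F.Adj u v → c u = c v := by
    intro u v h
    rw [← mem_edgeSet, hFe] at h
    obtain ⟨x, hx⟩ := h
    rcases Sym2.eq_iff.1 hx with ⟨h1, h2⟩ | ⟨h1, h2⟩
    · rw [← h1, ← h2]
      exact hc x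
    · rw [← h1, ← h2]
      exact (hc x).symm
  -- walks give reduced words
  have hword : ∀ {u v : P} (p : F.Walk u v), p.edges.Nodup →
      ∃ l : List (Fin 4), l.IsChain (· ≠ ·) ∧ l.length = 2 * p.length ∧ u = (l.map s).prod * v ∧
        ∀ i, l.head? = some i → e (s i * u) ∈ p.edges := by
    intro u v p
    induction p with
    | nil =>
      intro _
      exact ⟨[], List.isChain_nil, rfl, by simp, by simp⟩
    | @cons u u' v h p ih =>
      intro hn
      rw [Walk.edges_cons, List.nodup_cons] at hn
      obtain ⟨l, hl1, hl2, hl3, hl4⟩ := ih hn.2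
      have h' := h
      rw [← mem_edgeSet, hFe] at h'
      obtain ⟨x, hx⟩ := h'
      obtain ⟨i, j, hij, hu, hu'⟩ : ∃ i j, i ≠ j ∧ u = s i * x ∧ u' = s j * x := by
        rcases Sym2.eq_iff.1 hx with ⟨h1, h2⟩ | ⟨h1, h2⟩
        · exact ⟨a x, b x, hab x, h1.symm, h2.symm⟩
        · exact ⟨b x, a x, (hab x).symm, h2.symm, h1.symm⟩
      refine ⟨i :: j :: l, ?_, ?_, ?_, ?_⟩
      · rw [List.isChain_cons_cons, List.isChain_cons]
        refine ⟨hij, ?_, hl1⟩
        rintro y hy rfl
        have h1 := hl4 j hy
        have hx1 : s j * u' = x := by rw [hu', hss]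
        rw [hx1, hx] at h1
        exact hn.1 h1
      · rw [List.length_cons, List.length_cons, hl2, Walk.length_cons]
        ring
      · rw [List.map_cons, List.map_cons, List.prod_cons, List.prod_cons, mul_assoc, mul_assoc,
          ← hl3, hu', hss, hu]
      · intro i' hi'
        have : i' = i := by simpa using hi'.symm
        subst this
        have hx1 : s i' * u = x := by rw [hu, hss]
        rw [hx1, hx, Walk.edges_cons]
        exact List.mem_cons_self
  -- F is acyclic
  have hacyc : F.IsAcyclic := by
    intro u p hp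
    obtain ⟨l, hl1, hl2, hl3, -⟩ := hword p hp.edges_nodup
    have hlen3 := hp.three_le_length
    have hsupp : ∀ w ∈ p.support, c w = c u := by
      intro w hw
      have h1 : F.Reachable w u := ⟨(p.takeUntil w hw).reverse⟩
      obtain ⟨q⟩ := h1
      clear hw hl3 hl2 hl1 hlen3 hp
      induction q with
      | nil => rfl
      | cons h q ih => exact (hFc _ _ h).trans (ih p)
    have hlen : p.length ≤ k := by
      have h1 : (p.support.tail.toFinset : Set P) ⊆ {v : P | c v = c u} := by
        intro w hw
        rw [Finset.mem_coe, List.mem_toFinset] at hw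
        exact hsupp w (List.mem_of_mem_tail hw)
      have h2 := Set.ncard_le_ncard h1 (Set.toFinite _)
      rw [Set.ncard_coe_finset, List.toFinset_card_of_nodup hp.support_nodup, List.length_tail,
        Walk.length_support] at h2
      have h3 := hk (c u)
      omega
    refine hrel l hl1 ?_ (by omega) ?_
    · intro h0
      rw [h0, List.length_nil] at hl2
      omega
    · exact mul_eq_right.1 hl3.symm
  -- counting edges
  have : Nonempty P := ⟨1⟩
  obtain ⟨T, hFT, -, hT⟩ := (connected_top (V := P)).exists_isTree_le_of_le_of_isAcyclic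
    (le_top : F ≤ ⊤) hacyc
  have h1 := hT.card_edgeFinset
  have h2 : Fintype.card P ≤ T.edgeFinset.card := by
    have h3 : (Finset.univ.image e) ⊆ T.edgeFinset := by
      intro z hz
      rw [Finset.mem_image] at hz
      obtain ⟨x, -, rfl⟩ := hz
      rw [mem_edgeFinset]
      have h4 : e x ∈ F.edgeSet := by
        rw [hFe]
        exact ⟨x, rfl⟩
      exact edgeSet_mono hFT h4
    have h4 := Finset.card_le_card h3
    rw [Finset.card_image_of_injective _ heinj, Finset.card_univ] at h4
    exact h4
  omega

/-- For every `k` there is a finite graph with all degrees at most `12` such that every colouring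
with colour classes of size at most `k` has a rainbow `K_4`. -/
theorem no_colouring (k : ℕ) : ∃ (V : Type) (_ : Fintype V) (G : SimpleGraph V),
    (∀ v : V, (G.neighborSet v).ncard ≤ 12) ∧
    ∀ c : V → ℕ, (∀ i : ℕ, {v : V | c v = i}.ncard ≤ k) →
      ∃ t : Finset V, G.IsNClique 4 t ∧ ∀ x ∈ t, ∀ y ∈ t, x ≠ y → c x ≠ c y := by
  classical
  obtain ⟨P, hP, hF, s, hs, hrel⟩ := exists_group (2 * k + 4)
  have hinj : Function.Injective s := by
    intro i j h
    by_contra hij
    refine hrel [i, j] (by simp [hij]) (by simp) (by simp) ?_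
    rw [List.map_cons, List.map_cons, List.map_nil, List.prod_cons, List.prod_cons, List.prod_nil,
      mul_one, h, hs]
  refine ⟨P, hF, Gr s, gr_degree s hs, fun c hk => ?_⟩
  by_contra hcon
  push Not at hcon
  have h1 : ∀ x : P, ∃ i j : Fin 4, i ≠ j ∧ c (s i * x) = c (s j * x) := by
    intro x
    obtain ⟨u, hu, v, hv, huv, hc⟩ := hcon _ (gr_clique s hinj x)
    obtain ⟨i, -, rfl⟩ := Finset.mem_image.1 hu
    obtain ⟨j, -, rfl⟩ := Finset.mem_image.1 hv
    refine ⟨i, j, ?_, hc⟩
    rintro rfl
    exact huv rfl
  choose a b hab hc using h1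
  exact key s hs k hrel c hk a b hab hc

end Pool.Agent.H84.RC
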